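import Mathlib
import Pool.Agent.Y322.IV.Stm3

set_option autoImplicit false

/-! IV-BAIRE (project IV, helper322). -/

open Set MeasureTheory Function Topology Metric
open scoped unitInterval ENNReal

namespace Pool.Agent.Y891.IV

theorem open_lt {X : Type} [MetricSpace X] [ProperSpace X] [MeasurableSpace X] [BorelSpace X]
    (ν : Measure X) [IsLocallyFiniteMeasure ν] (C : Set ((ℕ → I) × X)) (hC : IsClosed C)
    (B : Set X) (hB : IsCompact B) (δ : ℝ≥0∞) :
    IsOpen {t : ℕ → I | ν ({x | (t, x) ∈ C} ∩ B) < δ} := by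
  rw [isOpen_iff_mem_nhds]
  intro t₀ ht₀
  obtain ⟨U, hU1, hU2, hU3⟩ := Set.exists_isOpen_lt_of_lt _ δ ht₀
  have hK : IsCompact (C ∩ (univ ×ˢ (B \ U))) := by
    refine IsCompact.inter_left ?_ hC
    exact isCompact_univ.prod (hB.diff hU2)
  have hcl : IsClosed (Prod.fst '' (C ∩ (univ ×ˢ (B \ U)))) := (hK.image continuous_fst).isClosed
  have hmem : t₀ ∈ (Prod.fst '' (C ∩ (univ ×ˢ (B \ U))))ᶜ := by
    rintro ⟨⟨t, x⟩, ⟨hx1, -, hx2, hx3⟩, rfl⟩
    exact hx3 (hU1 ⟨hx1, hx2⟩)
  filter_upwards [hcl.isOpen_compl.mem_nhds hmem] with t ht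
  refine lt_of_le_of_lt (measure_mono ?_) hU3
  rintro x ⟨hx1, hx2⟩
  by_contra hx3
  exact ht ⟨(t, x), ⟨hx1, mem_univ _, hx2, hx3⟩, rfl⟩

theorem not_countable_open {V : Set I} (hV : IsOpen V) (hne : V.Nonempty) : ¬ V.Countable := by
  intro hc
  obtain ⟨O, hO, rfl⟩ := isOpen_induced_iff.1 hV
  obtain ⟨r, hr⟩ := hne
  have h1 : ((O ∩ Ioo (0 : ℝ) 1)).Nonempty := by
    have h2 : (r : ℝ) ∈ closure (Ioo (0 : ℝ) 1) := by
      rw [closure_Ioo zero_ne_one]
      exact r.2
    exact mem_closure_iff.1 h2 O hO hr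
  have h3 : (O ∩ Ioo (0 : ℝ) 1).Countable := by
    refine (hc.image (Subtype.val : I → ℝ)).mono ?_
    rintro x ⟨hx1, hx2⟩
    exact ⟨⟨x, Ioo_subset_Icc_self hx2⟩, hx1, rfl⟩
  have h4 := (hO.inter isOpen_Ioo).measure_pos (volume : Measure ℝ) h1
  rw [h3.measure_zero] at h4
  exact lt_irrefl _ h4

theorem prove_baire : Pool.Agent.Y322.IV.S_BAIRE := by
  intro X _ _ _ _ ν _ j C hC hinj
  rcases isEmpty_or_nonempty X with hX | ⟨⟨x₀⟩⟩
  · have : {t : ℕ → I | ν {x | (t, x) ∈ C} = 0} = univ := by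
      ext t
      simp only [mem_ofPred_eq, mem_univ, iff_true]
      have : {x : X | (t, x) ∈ C} = ∅ := Set.eq_empty_of_isEmpty _
      rw [this, measure_empty]
    rw [this]
    exact Filter.univ_mem
  let A : ℕ → ℕ → Set (ℕ → I) := fun N m =>
    {t | ν ({x | (t, x) ∈ C} ∩ closedBall x₀ N) < ((m : ℝ≥0∞) + 1)⁻¹}
  have hAo : ∀ N m, IsOpen (A N m) := fun N m =>
    open_lt ν C hC _ (isCompact_closedBall x₀ (N : ℝ)) _
  have hCt : ∀ t : ℕ → I, IsClosed {x : X | (t, x) ∈ C} := fun t =>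
    hC.preimage (by fun_prop)
  have hAd : ∀ N m, Dense (A N m) := by
    intro N m
    have hint : interior (A N m)ᶜ = ∅ := by
      rw [Set.eq_empty_iff_forall_notMem]
      intro t ht
      have hcont : Continuous fun r : I => update t j r := continuous_const.update j continuous_id
      set V : Set I := (fun r : I => update t j r) ⁻¹' interior (A N m)ᶜ with hV
      have hVo : IsOpen V := isOpen_interior.preimage hcont
      have hVn : V.Nonempty := ⟨t j, by
        rw [hV, mem_preimage, update_eq_self]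
        exact ht⟩
      apply not_countable_open hVo hVn
      have hcount := Measure.countable_meas_pos_of_disjoint_iUnion (μ := ν)
        (As := fun r : I => {x | (update t j r, x) ∈ C} ∩ closedBall x₀ N)
        (fun r => ((hCt _).inter isClosed_closedBall).measurableSet) (by
          intro r r' hne
          rw [Function.onFun, Set.disjoint_left]
          rintro x ⟨hx1, -⟩ ⟨hx2, -⟩
          exact hne (hinj t r r' x hx1 hx2))
      refine hcount.mono ?_
      intro r hr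
      have h1 : update t j r ∈ (A N m)ᶜ := interior_subset hr
      simp only [A, mem_compl_iff, mem_ofPred_eq, not_lt] at h1
      refine lt_of_lt_of_le ?_ h1
      rw [ENNReal.inv_pos]
      exact ENNReal.add_ne_top.2 ⟨ENNReal.natCast_ne_top m, ENNReal.one_ne_top⟩
    have hfin := interior_eq_empty_iff_dense_compl.1 hint
    rwa [compl_compl] at hfin
  have hres : (⋂ N, ⋂ m, A N m) ∈ residual (ℕ → I) := by
    rw [countable_iInter_mem]
    intro N
    rw [countable_iInter_mem]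
    intro m
    exact residual_of_dense_open (hAo N m) (hAd N m)
  refine Filter.mem_of_superset hres ?_
  intro t ht
  have h0 : ∀ N : ℕ, ν ({x | (t, x) ∈ C} ∩ closedBall x₀ N) = 0 := by
    intro N
    by_contra hne
    obtain ⟨m, hm⟩ := ENNReal.exists_inv_nat_lt hne
    have h1 : ν ({x | (t, x) ∈ C} ∩ closedBall x₀ N) < ((m : ℝ≥0∞) + 1)⁻¹ :=
      mem_iInter.1 (mem_iInter.1 ht N) m
    have h2 : ((m : ℝ≥0∞) + 1)⁻¹ ≤ (m : ℝ≥0∞)⁻¹ := ENNReal.inv_le_inv.2 le_self_add
    exact absurd (hm.trans (h1.trans_le h2)) (lt_irrefl _)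
  show ν {x | (t, x) ∈ C} = 0
  have h1 : {x | (t, x) ∈ C} = ⋃ N : ℕ, {x | (t, x) ∈ C} ∩ closedBall x₀ N := by
    rw [← inter_iUnion, iUnion_closedBall_nat, inter_univ]
  rw [h1]
  exact measure_iUnion_null h0

end Pool.Agent.Y891.IV
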